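import Pool.Agent.H63.SEP.Stmts3

/-!
Project SEP, module BDF: Boolean operations and existential quantification over natural numbers
for Borel relations.
-/

set_option linter.unusedVariables false
set_option synthInstance.maxSize 100000

namespace SW.SEP

open SW

section
variable {N : Type} [SetStr N] [ZFC N]

/-- definable relations of four variables -/
abbrev Df4 (P : N → N → N → N → Prop) : Prop := Df (fun v : Fin 4 → N => P (v 0) (v 1) (v 2) (v 3))

theorem bdf_const (P : Prop) : BD (fun _ _ _ _ : N => P) :=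
  BD.base _ (by infer_instance) emp emp_mem_om (fun _ _ _ _ _ _ _ _ _ _ _ _ => Iff.rfl)

theorem bdf_and {P Q : N → N → N → N → Prop} (hP : Df4 P) (hQ : Df4 Q) (h1 : BD P) (h2 : BD Q) :
    BD (fun x y w v => P x y w v ∧ Q x y w v) := by
  have hd : Df (fun v : Fin 5 → N => (v 0 = emp → P (v 1) (v 2) (v 3) (v 4)) ∧
      (¬ v 0 = emp → Q (v 1) (v 2) (v 3) (v 4))) := by
    have _ : Df (fun v : Fin 5 → N => P (v 1) (v 2) (v 3) (v 4)) :=
      Df.comp4 hP inferInstance inferInstance inferInstance inferInstance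
    have _ : Df (fun v : Fin 5 → N => Q (v 1) (v 2) (v 3) (v 4)) :=
      Df.comp4 hQ inferInstance inferInstance inferInstance inferInstance
    infer_instance
  have h3 := BD.all (fun k x y w v : N => (k = emp → P x y w v) ∧ (¬ k = emp → Q x y w v)) hd
    (fun k hk => by
      by_cases h : k = emp
      · exact BD.congr h1 (fun x y w v _ _ _ _ => by simp [h])
      · exact BD.congr h2 (fun x y w v _ _ _ _ => by simp [h]))
  refine BD.congr h3 (fun x y w v _ _ _ _ => ?_)
  constructor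
  · intro h
    exact ⟨(h emp emp_mem_om).1 rfl, (h (suc emp) (suc_mem_om emp_mem_om)).2 (suc_ne_emp _)⟩
  · rintro ⟨h1, h2⟩ k _
    exact ⟨fun _ => h1, fun _ => h2⟩

theorem bdf_not {P : N → N → N → N → Prop} (h1 : BD P) : BD (fun x y w v => ¬ P x y w v) :=
  BD.neg h1

theorem bdf_imp {P Q : N → N → N → N → Prop} (hP : Df4 P) (hQ : Df4 Q) (h1 : BD P) (h2 : BD Q) :
    BD (fun x y w v => P x y w v → Q x y w v) := by
  have hQ' : Df4 (fun x y w v => ¬ Q x y w v) := Df.not (hP := hQ)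
  refine BD.congr (bdf_not (bdf_and hP hQ' h1 (bdf_not h2))) (fun x y w v _ _ _ _ => ?_)
  tauto

theorem bdf_or {P Q : N → N → N → N → Prop} (hP : Df4 P) (hQ : Df4 Q) (h1 : BD P) (h2 : BD Q) :
    BD (fun x y w v => P x y w v ∨ Q x y w v) := by
  have hP' : Df4 (fun x y w v => ¬ P x y w v) := Df.not (hP := hP)
  have hQ' : Df4 (fun x y w v => ¬ Q x y w v) := Df.not (hP := hQ)
  refine BD.congr (bdf_not (bdf_and hP' hQ' (bdf_not h1) (bdf_not h2)))
    (fun x y w v _ _ _ _ => ?_)
  tauto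

theorem bdf_iff {P Q : N → N → N → N → Prop} (hP : Df4 P) (hQ : Df4 Q) (h1 : BD P) (h2 : BD Q) :
    BD (fun x y w v => (P x y w v ↔ Q x y w v)) := by
  have hP' : Df4 (fun x y w v => P x y w v → Q x y w v) := Df.imp (hP := hP) (hQ := hQ)
  have hQ' : Df4 (fun x y w v => Q x y w v → P x y w v) := Df.imp (hP := hQ) (hQ := hP)
  refine BD.congr (bdf_and hP' hQ' (bdf_imp hP hQ h1 h2) (bdf_imp hQ hP h2 h1))
    (fun x y w v _ _ _ _ => ?_)
  tauto

theorem bdf_ex {R : N → N → N → N → N → Prop}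
    (hR : Df (fun v : Fin 5 → N => R (v 0) (v 1) (v 2) (v 3) (v 4)))
    (h : ∀ k, E k om → BD (R k)) : BD (fun x y w v => ∃ k, E k om ∧ R k x y w v) := by
  refine BD.congr (bdf_not (BD.all (fun k x y w v => ¬ R k x y w v) (Df.not (hP := hR))
    (fun k hk => bdf_not (h k hk)))) (fun x y w v _ _ _ _ => ?_)
  simp only [not_forall, not_not, exists_prop]

end

theorem sep_bdf : BDFStmt := by
  intro N _ _
  exact ⟨fun P Q hP hQ h1 h2 => ⟨bdf_and hP hQ h1 h2, bdf_or hP hQ h1 h2, bdf_imp hP hQ h1 h2,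
    bdf_iff hP hQ h1 h2⟩, bdf_const, fun R hR h => bdf_ex hR h⟩

end SW.SEP
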