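import Pool.Agent.H49.SEP.SRB
import Pool.Agent.H49.SEP.BDF

/-!
Project SEP, module COB: `COk` and `Wd` are Borel.
-/

set_option linter.unusedVariables false
set_option synthInstance.maxSize 100000

namespace SW.SEP

open SW

section
variable {N : Type} [SetStr N] [ZFC N]

/-- satisfaction in the coded structure, for formulas with one variable -/
def CS1 (k : N) (f : Fml 1) (y m : N) : Prop :=
  SatR (fun a => Dm k y a) (fun a b => Em k y a b) f ![m]

/-- satisfaction of the formula for ordered pairs in the coded structure -/
def CS3 (k y a b c : N) : Prop :=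
  SatR (fun a => Dm k y a) (fun a b => Em k y a b) fOP ![a, b, c]

instance cob_CS1_df {k : N} {f : Fml 1} {n : ℕ} {s t : (Fin n → N) → N} [hs : DfT s]
    [ht : DfT t] : Df (fun v => CS1 k f (s v) (t v)) := by
  refine Df.comp2 (R := fun a b => CS1 k f a b) ?_ hs ht
  refine (srb_sat_df (N := N) f (m := 2) (fun _ => k) (fun w => w 0) inferInstance
    inferInstance (fun _ w => w 1) (fun i => inferInstance)).congr fun v => ?_
  unfold CS1
  have e : (![v 1] : Fin 1 → N) = fun _ => v 1 := by
    funext i
    fin_cases i
    rfl
  rw [e]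

instance cob_CS3_df {k : N} {n : ℕ} {s t u x : (Fin n → N) → N} [hs : DfT s]
    [ht : DfT t] [hu : DfT u] [hx : DfT x] : Df (fun v => CS3 k (s v) (t v) (u v) (x v)) := by
  refine Df.comp4 (R := fun a b c d => CS3 k a b c d) ?_ hs ht hu hx
  refine (srb_sat_df (N := N) fOP (m := 4) (fun _ => k) (fun w => w 0) inferInstance
    inferInstance (fun i w => w i.succ) (fun i => inferInstance)).congr fun v => ?_
  unfold CS3
  have e : (![v 1, v 2, v 3] : Fin 3 → N) = fun i => v i.succ := by
    funext i
    fin_cases i
    · rfl
    · rfl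
    · rfl
  rw [e]

theorem cob_x {a b : N} (ha : E a om) : BD (fun x y w v : N => E (opair a b) x) := by
  refine BD.base _ (by infer_instance) (suc a) (suc_mem_om ha) ?_
  intro x y w v x' y' w' v' hx _ _ _
  have h1 : ∀ y : N, E (opair a b) y ↔ E (opair a b) (res y (suc a)) := by
    intro y
    rw [opair_mem_res]
    simp
  rw [h1 x, h1 x', hx.2.2]

theorem cob_v {a b : N} (ha : E a om) : BD (fun x y w v : N => E (opair a b) v) := by
  refine BD.base _ (by infer_instance) (suc a) (suc_mem_om ha) ?_
  intro x y w v x' y' w' v' _ _ _ hv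
  have h1 : ∀ y : N, E (opair a b) y ↔ E (opair a b) (res y (suc a)) := by
    intro y
    rw [opair_mem_res]
    simp
  rw [h1 v, h1 v', hv.2.2]

theorem cob_one : E (one : N) om := by
  have e : (one : N) = suc emp := by
    refine ext fun z => ?_
    simp [one]
  rw [e]
  exact suc_mem_om emp_mem_om

theorem cob_two : E (two : N) om := by
  have e : (two : N) = suc (suc emp) := by
    refine ext fun z => ?_
    have h : (sing emp : N) = suc emp := by
      refine ext fun z => ?_
      simp
    rw [mem_suc, mem_suc, two, mem_upair, h]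
    simp
  rw [e]
  exact suc_mem_om (suc_mem_om emp_mem_om)

theorem cob_Dm {k m : N} (hk : Inj2 k) (hm : E m om) : BD (fun x y w v : N => Dm k y m) := by
  unfold Dm
  exact bdf_and (P := fun x y w v => E m om) (by infer_instance) (by infer_instance)
    (bdf_const _) (srb_base (hk.1 _ _ emp_mem_om hm))

theorem cob_Em {k m m' : N} (hk : Inj2 k) (hm : E m om) (hm' : E m' om) :
    BD (fun x y w v : N => Em k y m m') := by
  unfold Em
  exact srb_base (hk.1 _ _ cob_one (hk.1 _ _ hm hm'))

theorem cob_Nu {k m m' : N} (hk : Inj2 k) (hm : E m om) (hm' : E m' om) :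
    BD (fun x y w v : N => Nu k y m m') := by
  unfold Nu
  exact srb_base (hk.1 _ _ cob_two (hk.1 _ _ hm hm'))

theorem cob_CS1 {k m : N} {f : Fml 1} (hk : Inj2 k) (hm : E m om) :
    BD (fun x y w v : N => CS1 k f y m) := by
  unfold CS1
  exact sep_srb sep_bdf N k hk 1 f _ (fun i => by fin_cases i; exact hm)

theorem cob_CS3 {k a b c : N} (hk : Inj2 k) (ha : E a om) (hb : E b om) (hc : E c om) :
    BD (fun x y w v : N => CS3 k y a b c) := by
  unfold CS3
  exact sep_srb sep_bdf N k hk 3 fOP _ (fun i => by
    fin_cases i
    · exact ha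
    · exact hb
    · exact hc)

attribute [local irreducible] Dm Em Nu CS1 CS3

theorem cob_p1 {k : N} (hk : Inj2 k) : BD (fun x y w v : N => ∀ m, E m om → ∀ m', E m' om →
    Dm k y m → Dm k y m' → (∀ a, E a om → Dm k y a → (Em k y a m ↔ Em k y a m')) → m = m') := by
  repeat' first
    | exact bdf_const _
    | exact cob_x (by assumption)
    | exact cob_v (by assumption)
    | exact cob_v (suc_mem_om (by assumption))
    | exact cob_Dm (by assumption) (by assumption)
    | exact cob_Em (by assumption) (by assumption) (by assumption)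
    | exact cob_Nu (by assumption) (by assumption) (by assumption)
    | exact cob_CS1 (by assumption) (by assumption)
    | exact cob_CS3 (by assumption) (by assumption) (by assumption) (by assumption)
    | refine bdf_ex (by infer_instance) (fun a ha => ?_)
    | refine BD.all _ (by infer_instance) (fun a ha => ?_)
    | refine bdf_and (by infer_instance) (by infer_instance) ?_ ?_
    | refine bdf_iff (by infer_instance) (by infer_instance) ?_ ?_
    | refine bdf_not ?_
    | refine bdf_imp (by infer_instance) (by infer_instance) ?_ ?_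

theorem cob_p2 {k : N} (hk : Inj2 k) : BD (fun x y w v : N => ∀ a, E a om →
    ∃ m, E m om ∧ (Dm k y m ∧ Nu k y a m)) := by
  repeat' first
    | exact bdf_const _
    | exact cob_x (by assumption)
    | exact cob_v (by assumption)
    | exact cob_v (suc_mem_om (by assumption))
    | exact cob_Dm (by assumption) (by assumption)
    | exact cob_Em (by assumption) (by assumption) (by assumption)
    | exact cob_Nu (by assumption) (by assumption) (by assumption)
    | exact cob_CS1 (by assumption) (by assumption)
    | exact cob_CS3 (by assumption) (by assumption) (by assumption) (by assumption)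
    | refine bdf_ex (by infer_instance) (fun a ha => ?_)
    | refine BD.all _ (by infer_instance) (fun a ha => ?_)
    | refine bdf_and (by infer_instance) (by infer_instance) ?_ ?_
    | refine bdf_iff (by infer_instance) (by infer_instance) ?_ ?_
    | refine bdf_not ?_
    | refine bdf_imp (by infer_instance) (by infer_instance) ?_ ?_

theorem cob_p3 {k : N} (hk : Inj2 k) : BD (fun x y w v : N => ∀ a, E a om → ∀ m, E m om →
    Nu k y a m → (Dm k y m ∧ ∀ b, E b om → Dm k y b →
      (Em k y b m ↔ ∃ a', E a' om ∧ (E a' a ∧ Nu k y a' b)))) := by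
  repeat' first
    | exact bdf_const _
    | exact cob_x (by assumption)
    | exact cob_v (by assumption)
    | exact cob_v (suc_mem_om (by assumption))
    | exact cob_Dm (by assumption) (by assumption)
    | exact cob_Em (by assumption) (by assumption) (by assumption)
    | exact cob_Nu (by assumption) (by assumption) (by assumption)
    | exact cob_CS1 (by assumption) (by assumption)
    | exact cob_CS3 (by assumption) (by assumption) (by assumption) (by assumption)
    | refine bdf_ex (by infer_instance) (fun a ha => ?_)
    | refine BD.all _ (by infer_instance) (fun a ha => ?_)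
    | refine bdf_and (by infer_instance) (by infer_instance) ?_ ?_
    | refine bdf_iff (by infer_instance) (by infer_instance) ?_ ?_
    | refine bdf_not ?_
    | refine bdf_imp (by infer_instance) (by infer_instance) ?_ ?_

theorem cob_p4 {k : N} {f : Fml 1} (hk : Inj2 k) : BD (fun x y w v : N => ∃ m, E m om ∧
    (Dm k y m ∧ CS1 k f y m ∧
      (∀ a, E a om → Dm k y a → Em k y a m → ∃ b, E b om ∧ ∃ c, E c om ∧ ∃ b', E b' om ∧
        ∃ c', E c' om ∧ (E (opair b c) x ∧ Nu k y b b' ∧ Nu k y c c' ∧ CS3 k y a b' c')) ∧
      (∀ b, E b om → ∀ c, E c om → E (opair b c) x → ∃ a, E a om ∧ ∃ b', E b' om ∧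
        ∃ c', E c' om ∧ (Dm k y a ∧ Em k y a m ∧ Nu k y b b' ∧ Nu k y c c' ∧
          CS3 k y a b' c')))) := by
  repeat' first
    | exact bdf_const _
    | exact cob_x (by assumption)
    | exact cob_v (by assumption)
    | exact cob_v (suc_mem_om (by assumption))
    | exact cob_Dm (by assumption) (by assumption)
    | exact cob_Em (by assumption) (by assumption) (by assumption)
    | exact cob_Nu (by assumption) (by assumption) (by assumption)
    | exact cob_CS1 (by assumption) (by assumption)
    | exact cob_CS3 (by assumption) (by assumption) (by assumption) (by assumption)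
    | refine bdf_ex (by infer_instance) (fun a ha => ?_)
    | refine BD.all _ (by infer_instance) (fun a ha => ?_)
    | refine bdf_and (by infer_instance) (by infer_instance) ?_ ?_
    | refine bdf_iff (by infer_instance) (by infer_instance) ?_ ?_
    | refine bdf_not ?_
    | refine bdf_imp (by infer_instance) (by infer_instance) ?_ ?_

theorem cob_wd {k : N} (hk : Inj2 k) : BD (fun x y w v : N => ∃ n, E n om ∧ ∃ m, E m om ∧
    ∃ m', E m' om ∧ (E (opair n m) v ∧ E (opair (suc n) m') v ∧
      ¬ (Dm k y m ∧ Dm k y m' ∧ Em k y m' m))) := by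
  repeat' first
    | exact bdf_const _
    | exact cob_x (by assumption)
    | exact cob_v (by assumption)
    | exact cob_v (suc_mem_om (by assumption))
    | exact cob_Dm (by assumption) (by assumption)
    | exact cob_Em (by assumption) (by assumption) (by assumption)
    | exact cob_Nu (by assumption) (by assumption) (by assumption)
    | exact cob_CS1 (by assumption) (by assumption)
    | exact cob_CS3 (by assumption) (by assumption) (by assumption) (by assumption)
    | refine bdf_ex (by infer_instance) (fun a ha => ?_)
    | refine BD.all _ (by infer_instance) (fun a ha => ?_)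
    | refine bdf_and (by infer_instance) (by infer_instance) ?_ ?_
    | refine bdf_iff (by infer_instance) (by infer_instance) ?_ ?_
    | refine bdf_not ?_
    | refine bdf_imp (by infer_instance) (by infer_instance) ?_ ?_

end

theorem sep_cob : COBStmt := by
  intro N _ _ k f hk
  constructor
  · refine BD.congr (bdf_and (by infer_instance) (by infer_instance) (cob_p1 hk)
      (bdf_and (by infer_instance) (by infer_instance) (cob_p2 hk)
      (bdf_and (by infer_instance) (by infer_instance) (cob_p3 hk) (cob_p4 (f := f) hk)))) ?_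
    intro x y w v hx hy _ _
    unfold COk CS1 CS3
    constructor
    · rintro ⟨h1, h2, h3, m, hm, h4, h5, h6, h7⟩
      refine ⟨fun m m' hm hm' h => h1 m hm.1 m' hm'.1 hm hm' (fun a _ ha => h a ha),
        fun a ha => ?_, fun a m ha hm h => ?_, m, h4, h5, fun a ha ham => ?_,
        fun b c hb hc hbc => ?_⟩
      · obtain ⟨m, _, h⟩ := h2 a ha
        exact ⟨m, h⟩
      · obtain ⟨h8, h9⟩ := h3 a ha m hm h
        refine ⟨h8, fun b hb => (h9 b hb.1 hb).trans ?_⟩
        constructor
        · rintro ⟨a', _, h10⟩
          exact ⟨a', h10⟩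
        · rintro ⟨a', h10⟩
          exact ⟨a', Trans_om a ha a' h10.1, h10⟩
      · obtain ⟨b, hb, c, hc, b', hb', c', hc', h⟩ := h6 a ha.1 ha ham
        exact ⟨b, c, b', c', hb, hc, hb', hc', h⟩
      · obtain ⟨a, ha, b', hb', c', hc', h8, h9⟩ := h7 b hb c hc hbc
        exact ⟨a, b', c', h8, hb', hc', h9⟩
    · rintro ⟨h1, h2, h3, m, h4, h5, h6, h7⟩
      refine ⟨fun m _ m' _ hm hm' h => h1 m m' hm hm' (fun a ha => h a ha.1 ha),
        fun a ha => ?_, fun a ha m hm h => ?_, m, h4.1, h4, h5, fun a _ ha ham => ?_,
        fun b hb c hc hbc => ?_⟩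
      · obtain ⟨m, h⟩ := h2 a ha
        exact ⟨m, h.1.1, h⟩
      · obtain ⟨h8, h9⟩ := h3 a m ha hm h
        refine ⟨h8, fun b _ hb => (h9 b hb).trans ?_⟩
        constructor
        · rintro ⟨a', h10⟩
          exact ⟨a', Trans_om a ha a' h10.1, h10⟩
        · rintro ⟨a', _, h10⟩
          exact ⟨a', h10⟩
      · obtain ⟨b, c, b', c', hb, hc, hb', hc', h⟩ := h6 a ha ham
        exact ⟨b, hb, c, hc, b', hb', c', hc', h⟩
      · obtain ⟨a, b', c', h8, hb', hc', h9⟩ := h7 b c hb hc hbc
        exact ⟨a, h8.1, b', hb', c', hc', h8, h9⟩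
  · refine BD.congr (cob_wd hk) ?_
    intro x y w v _ _ _ hv
    unfold Wd
    have hval : ∀ n m, E (opair n m) v → E m om := by
      intro n m h
      obtain ⟨a, b, ha, hb, e⟩ := hv.1 _ h
      rw [opair_inj] at e
      rw [e.2]
      exact hb
    constructor
    · rintro ⟨n, hn, m, hm, m', hm', h⟩
      exact ⟨n, m, m', hn, h⟩
    · rintro ⟨n, m, m', hn, h1, h2, h3⟩
      exact ⟨n, hn, m, hval _ _ h1, m', hval _ _ h2, h1, h2, h3⟩

end SW.SEP
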