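import Pool.Agent.H63.SEP.Stmts3

/-!
Project SEP, module SRB: satisfaction in the structure coded by the second point is Borel.
-/

set_option linter.unusedVariables false
set_option synthInstance.maxSize 100000

namespace SW.SEP

open SW

section
variable {N : Type} [SetStr N] [ZFC N]

instance srb_Dm_df {n : ℕ} {t s u : (Fin n → N) → N} [ht : DfT t] [hs : DfT s] [hu : DfT u] :
    Df (fun v => Dm (t v) (s v) (u v)) := Dm_df.comp3 ht hs hu

instance srb_Em_df {n : ℕ} {t s u x : (Fin n → N) → N} [ht : DfT t] [hs : DfT s] [hu : DfT u]
    [hx : DfT x] : Df (fun v => Em (t v) (s v) (u v) (x v)) :=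
  Em_df.comp4 (R := fun a b c d => Em a b c d) ht hs hu hx

instance srb_Nu_df {n : ℕ} {t s u x : (Fin n → N) → N} [ht : DfT t] [hs : DfT s] [hu : DfT u]
    [hx : DfT x] : Df (fun v => Nu (t v) (s v) (u v) (x v)) :=
  Nu_df.comp4 (R := fun a b c d => Nu a b c d) ht hs hu hx

/-- satisfaction in the coded structure is definable -/
theorem srb_sat_df : ∀ {n : ℕ} (f : Fml n) {m : ℕ} (k s : (Fin m → N) → N) (hk : DfT k)
    (hs : DfT s) (t : Fin n → (Fin m → N) → N), (∀ i, DfT (t i)) →
    Df (fun w : Fin m → N => SatR (fun a => Dm (k w) (s w) a) (fun a b => Em (k w) (s w) a b) f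
      (fun i => t i w))
  | _, .mem i j, m, k, s, hk, hs, t, ht => by
      have _ := ht i
      have _ := ht j
      simp only [SatR]
      infer_instance
  | _, .eq i j, m, k, s, hk, hs, t, ht => by
      have _ := ht i
      have _ := ht j
      simp only [SatR]
      infer_instance
  | _, .bot, m, k, s, hk, hs, t, ht => by
      simp only [SatR]
      infer_instance
  | _, .imp f g, m, k, s, hk, hs, t, ht => by
      have _ := srb_sat_df f k s hk hs t ht
      have _ := srb_sat_df g k s hk hs t ht
      simp only [SatR]
      infer_instance
  | _, .all f, m, k, s, hk, hs, t, ht => by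
      have h1 : Df (fun w : Fin (m + 1) → N => SatR
          (fun a => Dm (k (fun i => w i.succ)) (s (fun i => w i.succ)) a)
          (fun a b => Em (k (fun i => w i.succ)) (s (fun i => w i.succ)) a b) f
          (fun i => (Fin.cases (fun w => w 0) (fun i w => t i (fun i => w i.succ)) i :
            (Fin (m + 1) → N) → N) w)) := by
        refine srb_sat_df f _ _ (hk.ren _) (hs.ren _) _ ?_
        intro i
        refine Fin.cases ?_ (fun j => ?_) i
        · exact (inferInstance : DfT (fun w : Fin (m + 1) → N => w 0))
        · exact (ht j).ren _
      have h2 : Df (fun w : Fin (m + 1) → N => SatR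
          (fun a => Dm (k (fun i => w i.succ)) (s (fun i => w i.succ)) a)
          (fun a b => Em (k (fun i => w i.succ)) (s (fun i => w i.succ)) a b) f
          (Fin.cons (w 0) (fun i => t i (fun i => w i.succ)))) := by
        refine h1.congr fun w => ?_
        have e : (Fin.cons (w 0) (fun i => t i (fun i => w i.succ)) : Fin _ → N) =
            (fun i => (Fin.cases (fun w => w 0) (fun i w => t i (fun i => w i.succ)) i :
            (Fin (m + 1) → N) → N) w) := by
          funext i
          refine Fin.cases ?_ (fun j => ?_) i
          · rfl
          · rfl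
        rw [e]
      simp only [SatR]
      exact Df.all (P := fun x (w : Fin m → N) => Dm (k w) (s w) x → SatR
          (fun a => Dm (k w) (s w) a) (fun a b => Em (k w) (s w) a b) f
          (Fin.cons x (fun i => t i w)))
        (h := Df.imp (hP := srb_Dm_df (ht := hk.ren _) (hs := hs.ren _)) (hQ := h2))

end

/-- the value of the second point at one place -/
theorem srb_base {N : Type} [SetStr N] [ZFC N] {a b : N} (ha : E a om) :
    BD (fun x y w v : N => E (opair a b) y) := by
  refine BD.base _ (by infer_instance) (suc a) (suc_mem_om ha) ?_
  intro x y w v x' y' w' v' _ hy _ _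
  have h1 : ∀ y : N, E (opair a b) y ↔ E (opair a b) (res y (suc a)) := by
    intro y
    rw [opair_mem_res]
    simp
  rw [h1 y, h1 y', hy.2.2]

theorem srb_const {N : Type} [SetStr N] [ZFC N] (P : Prop) :
    BD (fun x y w v : N => P) :=
  BD.base _ (by infer_instance) emp emp_mem_om (fun _ _ _ _ _ _ _ _ _ _ _ _ => Iff.rfl)

theorem srb_main (hB : BDFStmt) {N : Type} [SetStr N] [ZFC N] (k : N) (hk : Inj2 k) :
    ∀ {n : ℕ} (f : Fml n) (v : Fin n → N), (∀ i, E (v i) om) →
    BD (fun x y w u => SatR (fun a => Dm k y a) (fun a b => Em k y a b) f v)
  | _, .mem i j, v, hv => by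
      simp only [SatR]
      unfold Em
      exact srb_base (hk.1 _ _ (suc_mem_om emp_mem_om |> fun h => by
        have e : (one : N) = suc emp := by
          refine ext fun z => ?_
          simp [one]
        rw [e]; exact h) (hk.1 _ _ (hv i) (hv j)))
  | _, .eq i j, v, hv => by
      simp only [SatR]
      exact srb_const _
  | _, .bot, v, hv => by
      simp only [SatR]
      exact srb_const _
  | _, .imp f g, v, hv => by
      simp only [SatR]
      have h1 := srb_sat_df (N := N) f (m := 4) (fun _ => k) (fun w => w 1) inferInstance
        inferInstance (fun i _ => v i) (fun i => inferInstance)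
      have h2 := srb_sat_df (N := N) g (m := 4) (fun _ => k) (fun w => w 1) inferInstance
        inferInstance (fun i _ => v i) (fun i => inferInstance)
      exact ((hB N).1 (fun x y w u => SatR (fun a => Dm k y a) (fun a b => Em k y a b) f v)
        (fun x y w u => SatR (fun a => Dm k y a) (fun a b => Em k y a b) g v) h1 h2
        (srb_main hB k hk f v hv) (srb_main hB k hk g v hv)).2.2.1
  | _, .all f, v, hv => by
      simp only [SatR]
      have h1 : Df (fun w : Fin 5 → N => SatR (fun a => Dm k (w 2) a)
          (fun a b => Em k (w 2) a b) f (Fin.cons (w 0) v)) := by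
        have h2 := srb_sat_df (N := N) f (m := 5) (fun _ => k) (fun w => w 2) inferInstance
          inferInstance (fun i => Fin.cases (fun w => w 0) (fun i _ => v i) i) (fun i => by
            refine Fin.cases ?_ (fun j => ?_) i
            · exact (inferInstance : DfT (fun w : Fin 5 → N => w 0))
            · exact (inferInstance : DfT (fun w : Fin 5 → N => v j)))
        refine h2.congr fun w => ?_
        have e : (Fin.cons (w 0) v : Fin _ → N) =
            (fun i => (Fin.cases (fun w => w 0) (fun i _ => v i) i :
            (Fin 5 → N) → N) w) := by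
          funext i
          refine Fin.cases ?_ (fun j => ?_) i
          · rfl
          · rfl
        rw [e]
      have h3 : ∀ a, E a om → BD (fun x y w u : N => Dm k y a →
          SatR (fun a => Dm k y a) (fun a b => Em k y a b) f (Fin.cons a v)) := by
        intro a ha
        have h4 := srb_sat_df (N := N) f (m := 4) (fun _ => k) (fun w => w 1) inferInstance
          inferInstance (fun i _ => (Fin.cons a v : Fin _ → N) i) (fun i => inferInstance)
        refine ((hB N).1 (fun x y w u => Dm k y a)
          (fun x y w u => SatR (fun a => Dm k y a) (fun a b => Em k y a b) f (Fin.cons a v))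
          (by infer_instance) h4 ?_ (srb_main hB k hk f _ ?_)).2.2.1
        · unfold Dm
          refine ((hB N).1 _ _ (by infer_instance) (by infer_instance) (srb_const _)
            (srb_base (hk.1 _ _ emp_mem_om ha))).1
        · intro i
          refine Fin.cases ?_ (fun j => ?_) i
          · exact ha
          · exact hv j
      refine BD.congr (BD.all (fun a x y w u : N => Dm k y a →
          SatR (fun a => Dm k y a) (fun a b => Em k y a b) f (Fin.cons a v))
        (Df.imp (hP := by infer_instance) (hQ := h1)) h3) ?_
      intro x y w u _ _ _ _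
      constructor
      · intro H a ha
        exact H a ha.1 ha
      · intro H a _ ha
        exact H a ha

theorem sep_srb (hB : BDFStmt) : SRBStmt := by
  intro N _ _ k hk n f v hv
  exact srb_main hB k hk f v hv

end SW.SEP
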