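import Pool.Agent.H63.SEP.Stmts3

/-!
Project SEP, module SRI: satisfaction is invariant under isomorphisms onto substructures.
-/

set_option linter.unusedVariables false
set_option synthInstance.maxSize 100000

namespace SW.SEP

open SW

theorem sri_aux {N : Type} [SetStr N] (D : N → Prop) (R : N → N → Prop) (A : N)
    (c : N → N) (h1 : ∀ x, D x → E (c x) A) (h2 : ∀ a, E a A → ∃ x, D x ∧ c x = a)
    (h3 : ∀ x y, D x → D y → c x = c y → x = y)
    (h4 : ∀ x y, D x → D y → (R x y ↔ E (c x) (c y))) :
    ∀ {n : ℕ} (f : Fml n) (v : Fin n → N) (hv : ∀ i, D (v i)) (h : ∀ i, E (c (v i)) A),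
    (SatR D R f v ↔ Sat (M := SubS A) f (fun i => ⟨c (v i), h i⟩))
  | _, .mem i j, v, hv, h => h4 _ _ (hv i) (hv j)
  | _, .eq i j, v, hv, h => by
      simp only [SatR, Sat]
      constructor
      · intro e
        exact Subtype.ext (congrArg c e)
      · intro e
        exact h3 _ _ (hv i) (hv j) (congrArg Subtype.val e)
  | _, .bot, v, hv, h => Iff.rfl
  | _, .imp f g, v, hv, h => by
      simp only [SatR, Sat]
      rw [sri_aux D R A c h1 h2 h3 h4 f v hv h, sri_aux D R A c h1 h2 h3 h4 g v hv h]
  | _, .all f, v, hv, h => by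
      simp only [SatR, Sat]
      have key : ∀ (x : N) (hx : D x), (SatR D R f (Fin.cons x v) ↔
          Sat (M := SubS A) f (Fin.cons (⟨c x, h1 x hx⟩ : SubS A)
            (fun i => (⟨c (v i), h i⟩ : SubS A)))) := by
        intro x hx
        have hv' : ∀ i, D ((Fin.cons x v : Fin _ → N) i) := by
          intro i
          refine Fin.cases ?_ (fun j => ?_) i
          · exact hx
          · exact hv j
        have h' : ∀ i, E (c ((Fin.cons x v : Fin _ → N) i)) A := by
          intro i
          exact h1 _ (hv' i)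
        rw [sri_aux D R A c h1 h2 h3 h4 f (Fin.cons x v) hv' h']
        have e : (fun i => (⟨c ((Fin.cons x v : Fin _ → N) i), h' i⟩ : SubS A)) =
            (Fin.cons (⟨c x, h1 x hx⟩ : SubS A) (fun i => (⟨c (v i), h i⟩ : SubS A))
              : Fin _ → SubS A) := by
          funext i
          refine Fin.cases ?_ (fun j => ?_) i
          · rfl
          · rfl
        rw [e]
      constructor
      · rintro H ⟨a, ha⟩
        obtain ⟨x, hx, rfl⟩ := h2 a ha
        exact (key x hx).1 (H x hx)
      · intro H x hx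
        exact (key x hx).2 (H ⟨c x, h1 x hx⟩)

theorem sep_sri : SRIStmt := by
  intro N _ D R A c h1 h2 h3 h4 n f v hv h
  exact sri_aux D R A c h1 h2 h3 h4 f v hv h

end SW.SEP
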